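import Pool.Agent.Lib.MP_211349_ag.Stmt

/-!
# Semistable models
-/

open CategoryTheory Limits AlgebraicGeometry

universe u

noncomputable section

namespace Pool.Agent.Lib.MP_211349_ag

/-- The completion of the local ring `R` is isomorphic to `k[[x, y]] / (x y)` over `k`: there is a
surjective `k`-homomorphism from `k[[x, y]]` to it with kernel `(x y)`. -/
def IsNodeRing {k R : Type u} [Field k] [CommRing R] [IsLocalRing R] (σ : k →+* R) : Prop :=
  ∃ φ : MvPowerSeries (Fin 2) k →+* AdicCompletion (IsLocalRing.maximalIdeal R) R,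
    Function.Surjective φ ∧
    RingHom.ker φ = Ideal.span {MvPowerSeries.X 0 * MvPowerSeries.X 1} ∧
    ∀ a : k, φ (MvPowerSeries.C a) = algebraMap R _ (σ a)

section nodes

variable {k : Type u} [Field k] {Z : Scheme.{u}}

/-- The ring homomorphism from `k` to the local ring of the `k`-scheme `g : Z → Spec k` at `z`. -/
def toStalk (g : Z ⟶ Spec (.of k)) (z : Z) : k →+* Z.presheaf.stalk z :=
  (Z.presheaf.germ ⊤ z trivial).hom.comp (g.appTop.hom.comp (Scheme.ΓSpecIso (.of k)).inv.hom)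

/-- The point `z` of the `k`-scheme `g : Z → Spec k` is an ordinary double point: the completion of
the local ring at `z` is isomorphic to `k[[x, y]] / (x y)` over `k`. -/
def IsNode (g : Z ⟶ Spec (.of k)) (z : Z) : Prop := IsNodeRing (toStalk g z)

/-- The `k`-scheme `g : Z → Spec k` is smooth at the point `z`. -/
def SmoothAt (g : Z ⟶ Spec (.of k)) (z : Z) : Prop := ∃ U : Z.Opens, z ∈ U ∧ Smooth (U.ι ≫ g)

/-- The only singular points of the `k`-scheme `g : Z → Spec k` are ordinary double points. -/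
def Nodal (g : Z ⟶ Spec (.of k)) : Prop := ∀ z : Z, SmoothAt g z ∨ IsNode g z

end nodes

/-- `f : X → Spec O` is a proper, flat and finitely presented model of `g : C → Spec K` whose
special fibre is connected and has at most ordinary double points. -/
structure SemistableModel {K : Type u} [Field K] (O : ValuationSubring K) {X C : Scheme.{u}}
    (f : X ⟶ Spec (.of O)) (g : C ⟶ Spec (.of K)) : Prop extends FlatModel O f g where
  nodal : Nodal (pullback.snd f (resPt O))

/-- `g₁ : C₁ → Spec K` and `g₂ : C₂ → Spec K` are integral, smooth and proper, and semistable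
models of finite étale coverings of `C₁` and `C₂` (nonempty disjoint unions are allowed) are never
isomorphic modulo `ϖ`. -/
structure NeverCloseSemistable {K : Type u} [Field K] (O : ValuationSubring K)
    {C₁ C₂ : Scheme.{u}} (g₁ : C₁ ⟶ Spec (.of K)) (g₂ : C₂ ⟶ Spec (.of K)) : Prop where
  smoothProper₁ : SmoothProper g₁
  smoothProper₂ : SmoothProper g₂
  notIso : ∀ (ι₁ ι₂ : Type u) (D₁ : ι₁ → Scheme.{u}) (D₂ : ι₂ → Scheme.{u})
    (π₁ : ∀ i, D₁ i ⟶ C₁) (π₂ : ∀ j, D₂ j ⟶ C₂) (X₁ : ι₁ → Scheme.{u}) (X₂ : ι₂ → Scheme.{u})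
    (f₁ : ∀ i, X₁ i ⟶ Spec (.of O)) (f₂ : ∀ j, X₂ j ⟶ Spec (.of O)), Nonempty ι₁ →
    (∀ i, Covering (π₁ i)) → (∀ j, Covering (π₂ j)) →
    (∀ i, SemistableModel O (f₁ i) (π₁ i ≫ g₁)) → (∀ j, SemistableModel O (f₂ j) (π₂ j ≫ g₂)) →
    ∀ ϖ : O, ϖ ≠ 0 → ¬ IsUnit ϖ →
      ¬ IsoMod O (Ideal.span {ϖ}) (Sigma.desc f₁) (Sigma.desc f₂)

end Pool.Agent.Lib.MP_211349_ag
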