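import Pool.Agent.Lib.MP_211349_ag.Mg.G012
import Pool.Agent.Lib.MP_211349_ag.Mg.G015
import Pool.Agent.Lib.MP_211349_ag.Mg.G011
import Pool.Agent.Lib.MP_211349_ag.Mg.G001
import Pool.Agent.Lib.MP_211349_ag.Mg.G010
import Pool.Agent.Lib.MP_211349_ag.Mg.G004

/-!
# Final assembly in characteristic zero
-/

open CategoryTheory Limits AlgebraicGeometry Polynomial

universe u

noncomputable section

namespace Pool.Agent.Lib.MP_211349_ag

/-- Reduction to a single pair of models. -/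
theorem NeverCloseSemistable.of_single {K : Type u} [Field K] {O : ValuationSubring K}
    (hO : RankOne O) {C₁ C₂ : Scheme.{u}} {g₁ : C₁ ⟶ Spec (.of K)} {g₂ : C₂ ⟶ Spec (.of K)}
    (h₁ : SmoothProper g₁) (h₂ : SmoothProper g₂)
    (h : ∀ (D₁ D₂ : Scheme.{u}) (π₁ : D₁ ⟶ C₁) (π₂ : D₂ ⟶ C₂) (X₁ X₂ : Scheme.{u})
      (f₁ : X₁ ⟶ Spec (.of O)) (f₂ : X₂ ⟶ Spec (.of O)), Covering π₁ → Covering π₂ →
      SemistableModel O f₁ (π₁ ≫ g₁) → SemistableModel O f₂ (π₂ ≫ g₂) →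
      ∀ e : specialFibre O f₁ ≅ specialFibre O f₂,
        e.hom ≫ pullback.snd f₂ (resPt O) = pullback.snd f₁ (resPt O) → False) :
    NeverCloseSemistable O g₁ g₂ := by
  refine ⟨h₁, h₂, ?_⟩
  intro ι₁ ι₂ D₁ D₂ π₁ π₂ X₁ X₂ f₁ f₂ hι hπ₁ hπ₂ hX₁ hX₂ ϖ h0 hu hiso
  have hI : Ideal.span {ϖ} ≠ ⊤ := by
    rwa [Ne, Ideal.span_singleton_eq_top]
  have hI0 : Ideal.span {ϖ} ≠ ⊥ := by
    rwa [Ne, Ideal.span_singleton_eq_bot]
  obtain ⟨i⟩ := hι
  obtain ⟨j, hj⟩ := isoMod_of_sigma hO _ hI hI0 f₁ f₂ (fun i => (hX₁ i).special)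
    (fun j => (hX₂ j).special) hiso i
  obtain ⟨e, he⟩ := hj.specialFibre hI
  exact h _ _ (π₁ i) (π₂ j) _ _ (f₁ i) (f₂ j) (hπ₁ i) (hπ₂ j) (hX₁ i) (hX₂ j) e he

theorem relOdd_map {R S : Type*} [CommRing R] [CommRing S] (ρ : R →+* S) (c : R) :
    (relOdd c).map (mapRingHom ρ) = relOdd (ρ c) := by
  unfold relOdd
  simp

theorem relEven_map {R S : Type*} [CommRing R] [CommRing S] (ρ : R →+* S) (c : R) :
    (relEven c).map (mapRingHom ρ) = relEven (ρ c) := by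
  unfold relEven
  simp

section unitBall

variable {K : Type u} [NontriviallyNormedField K] [IsUltrametricDist K] [IsAlgClosed K]
  [CharZero K] (p : ℕ) [Fact p.Prime] (hp : ‖(p : K)‖ < 1) (c : K)
  (hc : ∀ P : ℤ[X], ¬ C (p : ℤ) ∣ P → ‖aeval c P‖ = 1)

include hc in
theorem norm_of_coeff (P : ℤ[X]) (n : ℕ) (hn : ¬ (p : ℤ) ∣ P.coeff n) : ‖aeval c P‖ = 1 := by
  refine hc P fun h => hn ?_
  obtain ⟨Q, rfl⟩ := h
  rw [coeff_C_mul]
  exact dvd_mul_right _ _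

include hc in
theorem norm_eq_one : ‖c‖ = 1 := by
  have h := norm_of_coeff p c hc X 1 (by
    rw [coeff_X_one]
    exact fun h => (Fact.out : p.Prime).one_lt.ne' (by
      have := Int.eq_one_of_dvd_one (by positivity) h
      exact_mod_cast this))
  rwa [aeval_X] at h

end unitBall

/-- Odd residue characteristic. -/
theorem final_odd {K : Type u} [NontriviallyNormedField K] [IsUltrametricDist K] [IsAlgClosed K]
    [CharZero K] (p : ℕ) [Fact p.Prime] (hp2 : p ≠ 2) (hp : ‖(p : K)‖ < 1) (c₁ c₂ : K)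
    (hc₁ : ∀ P : ℤ[X], ¬ C (p : ℤ) ∣ P → ‖aeval c₁ P‖ = 1) (hc₂ : IsAlgebraic ℚ c₂)
    (hc₂0 : c₂ ≠ 0) (hc₂1 : c₂ ≠ 1) :
    NeverCloseSemistable (unitBall K) (toSpec K c₁) (toSpec K c₂) := by
  have hO : RankOne (unitBall K) := rankOne_unitBall
  have hp1 : ¬ (p : ℤ) ∣ 1 := fun h => (Fact.out : p.Prime).one_lt.ne' (by
      have := Int.eq_one_of_dvd_one (by positivity) h
      exact_mod_cast this)
  have hn1 : ‖c₁‖ = 1 := norm_eq_one p c₁ hc₁
  have hn2 : ‖1 - c₁‖ = 1 := by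
    have h := norm_of_coeff p c₁ hc₁ (1 - X) 0 (by simpa using hp1)
    simpa using h
  have hn3 : ‖(2 : K)‖ = 1 := by
    have h := norm_of_coeff p c₁ hc₁ (C 2) 0 (by
      rw [coeff_C_zero]
      intro h
      have h' : p ∣ 2 := by exact_mod_cast h
      exact hp2 ((Nat.prime_dvd_prime_iff_eq (Fact.out : p.Prime) Nat.prime_two).mp h'))
    rwa [aeval_C, map_ofNat] at h
  have hc₁0 : c₁ ≠ 0 := by
    rintro rfl
    simp at hn1
  have hc₁1 : c₁ ≠ 1 := by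
    rintro rfl
    simp at hn2
  have h2K : IsUnit (2 : K) := isUnit_iff_ne_zero.mpr two_ne_zero
  have hc₁O : c₁ ∈ unitBall K := (mem_unitBall c₁).mpr hn1.le
  set c : unitBall K := ⟨c₁, hc₁O⟩ with hcdef
  have hcu : IsUnit (1 - c) := (isUnit_unitBall _).mpr hn2
  have h2u : IsUnit (2 : unitBall K) := (isUnit_unitBall _).mpr hn3
  obtain ⟨F, _, _, φ, hφ, hφ'⟩ := exists_algebraic_numbers K
  obtain ⟨b, rfl⟩ := hφ c₂ hc₂
  have hb0 : b ≠ 0 := by
    rintro rfl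
    exact hc₂0 (map_zero _)
  have hb1 : b ≠ 1 := by
    rintro rfl
    exact hc₂1 (map_one _)
  have h2F : IsUnit (2 : F) := by
    refine isUnit_iff_ne_zero.mpr fun h => ?_
    have := congrArg φ h
    rw [map_ofNat, map_zero] at this
    exact two_ne_zero this
  have s1 : SmoothProper (toSpec K c₁) := ⟨curve_isProper _ _, curve_smooth _ _ h2K
    (isUnit_iff_ne_zero.mpr hc₁0) (isUnit_iff_ne_zero.mpr (sub_ne_zero.mpr hc₁1.symm)),
    curve_isIntegral _ _ hc₁0⟩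
  have s2 : SmoothProper (toSpec K (φ b)) := ⟨curve_isProper _ _, curve_smooth _ _ h2K
    (isUnit_iff_ne_zero.mpr hc₂0) (isUnit_iff_ne_zero.mpr (sub_ne_zero.mpr hc₂1.symm)),
    curve_isIntegral _ _ hc₂0⟩
  have sF : Smooth (toSpec F b) := curve_smooth F b h2F
    (isUnit_iff_ne_zero.mpr hb0) (isUnit_iff_ne_zero.mpr (sub_ne_zero.mpr hb1.symm))
  refine NeverCloseSemistable.of_single hO s1 s2 ?_
  intro D₁ D₂ π₁ π₂ X₁ X₂ f₁ f₂ hπ₁ hπ₂ hX₁ hX₂ e he
  have := hπ₁.isFinite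
  have := hπ₁.etale
  have := hπ₁.isIntegral
  have := hπ₂.isFinite
  have := hπ₂.etale
  have := hπ₂.isIntegral
  have := s1.smooth
  have := s2.smooth
  have := s2.isIntegral
  obtain ⟨x₁, y₁, hxy₁, hx₁, hxL₁⟩ := curve_functions K c₁ hc₁0 π₁
  obtain ⟨x₂, y₂, hxy₂, hx₂, hxL₂⟩ := curve_functions K (φ b) hc₂0 π₂
  refine chain hO φ (p : F) ?_ ?_ c ?_ (relOdd c) ?_ ?_ hX₁ ⟨x₁, hx₁, hxL₁⟩ ?_
    (isPullback_curveMap φ b) (curveCharts b hb0) π₂ hX₂ ⟨x₂, hx₂, hxL₂⟩ e he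
  · intro h
    have := congrArg φ h
    rw [map_natCast, map_zero] at this
    exact (Nat.cast_ne_zero.mpr (Fact.out : p.Prime).ne_zero) this
  · rw [map_natCast]
    exact (mem_unitBall_nonunits _).mpr hp
  · intro a _ h
    exact norm_sub_algebraic p hp c₁ hc₁ (φ a) (hφ' a) ((mem_unitBall_nonunits _).mp h)
  · intro K' _ _ O' τ hτ
    rw [relOdd_map]
    refine noParam_relOdd ?_ _ ?_
    · have h := h2u.map (valHom τ hτ)
      rwa [map_ofNat] at h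
    · have h := hcu.map (valHom τ hτ)
      rwa [map_sub, map_one] at h
  · intro k' M B _ _ _ _ _ _ _ _ _ κ' σ' τ' ι hι hγ x y hx hxy
    have := residueField_isAlgClosed (unitBall K)
    rw [evalAt_relOdd, sub_eq_zero] at hxy
    refine no_solution_constant κ' σ' ?_ ι hι _ hγ x y hx hxy
    have h := h2u.map (IsLocalRing.residue (unitBall K))
    rw [map_ofNat] at h
    exact h.ne_zero
  · let _ := (toFunctionField (π₁ ≫ toSpec K c₁)).toAlgebra
    obtain ⟨w, hw, hs⟩ := exists_resTrans (unitBall K) x₁ hx₁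
    have hcw : algebraMap K D₁.functionField c₁ ∈ w := (Over.mem_iff hw _).2 hc₁O
    refine ⟨w, hw, x₁, y₁, hs, V28_mem_of_sq ?_, ?_⟩
    · rw [hxy₁]
      exact mul_mem (mul_mem hs.1 (sub_mem (pow_mem hs.1 2) (one_mem w)))
        (sub_mem (one_mem w) (mul_mem hcw (pow_mem hs.1 2)))
    · rw [evalAt_relOdd, sub_eq_zero.mpr]
      · rw [ValuationSubring.mem_nonunits_iff, map_zero]
        exact zero_lt_one
      · exact hxy₁

/-- Residue characteristic two. -/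
theorem final_even {K : Type u} [NontriviallyNormedField K] [IsUltrametricDist K] [IsAlgClosed K]
    [CharZero K] (hp : ‖(2 : K)‖ < 1) (c₁ c₂ : K)
    (hc₁ : ∀ P : ℤ[X], ¬ C (2 : ℤ) ∣ P → ‖aeval c₁ P‖ = 1) (hc₂ : IsAlgebraic ℚ c₂)
    (hc₂0 : c₂ ≠ 0) (hc₂1 : 64 * c₂ ≠ 1) :
    NeverCloseSemistable (unitBall K) (Even.toSpec K c₁) (Even.toSpec K c₂) := by
  have hO : RankOne (unitBall K) := rankOne_unitBall
  have : Fact (Nat.Prime 2) := ⟨Nat.prime_two⟩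
  have hc₁' : ∀ P : ℤ[X], ¬ C ((2 : ℕ) : ℤ) ∣ P → ‖aeval c₁ P‖ = 1 := by
    intro P hP
    refine hc₁ P ?_
    rwa [Nat.cast_ofNat] at hP
  have hn1 : ‖c₁‖ = 1 := norm_eq_one 2 c₁ hc₁'
  have hc₁0 : c₁ ≠ 0 := by
    rintro rfl
    simp at hn1
  have hc₁1 : 64 * c₁ ≠ 1 := by
    intro h
    have h1 : ‖(64 : K)‖ < 1 := by
      have : (64 : K) = 2 ^ 6 := by norm_num
      rw [this, norm_pow]
      exact pow_lt_one₀ (norm_nonneg _) hp (by norm_num)
    have h2 := congrArg norm h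
    rw [norm_mul, hn1, mul_one, norm_one] at h2
    exact absurd h2 h1.ne
  have hc₁O : c₁ ∈ unitBall K := (mem_unitBall c₁).mpr hn1.le
  set c : unitBall K := ⟨c₁, hc₁O⟩ with hcdef
  have hcu : IsUnit c := (isUnit_unitBall _).mpr hn1
  have h2u : ¬ IsUnit (2 : unitBall K) := by
    rw [isUnit_unitBall]
    exact hp.ne
  obtain ⟨F, _, _, φ, hφ, hφ'⟩ := exists_algebraic_numbers K
  obtain ⟨b, rfl⟩ := hφ c₂ hc₂
  have hb0 : b ≠ 0 := by
    rintro rfl
    exact hc₂0 (map_zero _)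
  have hcF : CharZero F := ⟨fun a b h => by
    have h1 := congrArg φ h
    rw [map_natCast, map_natCast] at h1
    exact Nat.cast_injective h1⟩
  have hb1 : 64 * b ≠ 1 := by
    intro h
    have := congrArg φ h
    rw [map_mul, map_ofNat, map_one] at this
    exact hc₂1 this
  have s1 : SmoothProper (Even.toSpec K c₁) := ⟨Even.curve_isProper' _ _,
    Even.curve_smooth_charZero K c₁ hc₁0 hc₁1, Even.curve_isIntegral' _ _ hc₁0⟩
  have s2 : SmoothProper (Even.toSpec K (φ b)) := ⟨Even.curve_isProper' _ _,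
    Even.curve_smooth_charZero K _ hc₂0 hc₂1, Even.curve_isIntegral' _ _ hc₂0⟩
  have sF : Smooth (Even.toSpec F b) := Even.curve_smooth_charZero F b hb0 hb1
  refine NeverCloseSemistable.of_single hO s1 s2 ?_
  intro D₁ D₂ π₁ π₂ X₁ X₂ f₁ f₂ hπ₁ hπ₂ hX₁ hX₂ e he
  have := hπ₁.isFinite
  have := hπ₁.etale
  have := hπ₁.isIntegral
  have := hπ₂.isFinite
  have := hπ₂.etale
  have := hπ₂.isIntegral
  have := s1.smooth
  have := s2.smooth
  have := s2.isIntegral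
  obtain ⟨x₁, y₁, hxy₁, hx₁, hxL₁⟩ := Even.curve_functions' K c₁ hc₁0 π₁
  obtain ⟨x₂, y₂, hxy₂, hx₂, hxL₂⟩ := Even.curve_functions' K (φ b) hc₂0 π₂
  refine chain hO φ (2 : F) two_ne_zero ?_ c ?_ (relEven c) ?_ ?_ hX₁ ⟨x₁, hx₁, hxL₁⟩ ?_
    (Even.isPullback_curveMap φ b) (Even.curveCharts b hb0) π₂ hX₂ ⟨x₂, hx₂, hxL₂⟩ e he
  · rw [map_ofNat]
    exact (mem_unitBall_nonunits _).mpr hp
  · intro a _ h
    exact norm_sub_algebraic 2 (by exact_mod_cast hp) c₁ hc₁' (φ a) (hφ' a)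
      ((mem_unitBall_nonunits _).mp h)
  · intro K' _ _ O' τ hτ
    rw [relEven_map]
    refine noParam_relEven ?_ _ (hcu.map (valHom τ hτ))
    intro h
    apply h2u
    have := valHom_local τ hτ
    have h3 : IsUnit (valHom τ hτ (2 : unitBall K)) := by
      rwa [map_ofNat]
    exact isUnit_of_map_unit (valHom τ hτ) _ h3
  · intro k' M B _ _ _ _ _ _ _ _ _ κ' σ' τ' ι hι hγ x y hx hxy
    have := residueField_isAlgClosed (unitBall K)
    rw [evalAt_relEven, sub_eq_zero] at hxy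
    refine no_solution_constant_even κ' σ' ?_ ι hι _ hγ x y hx hxy
    have h3 : IsLocalRing.residue (unitBall K) 2 = 0 := by
      rw [IsLocalRing.residue_eq_zero_iff, IsLocalRing.mem_maximalIdeal]
      exact h2u
    rwa [map_ofNat] at h3
  · let _ := (toFunctionField (π₁ ≫ Even.toSpec K c₁)).toAlgebra
    obtain ⟨w, hw, hs⟩ := exists_resTrans (unitBall K) x₁ hx₁
    exact ⟨w, hw, sol_even hw x₁ y₁ hs c hxy₁⟩

end Pool.Agent.Lib.MP_211349_ag
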